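import Pool.Agent.N211.SM.Fin

/-!
# The Mumford-Tate conjecture on the fourth power, for motives with any centre

`X` is a smooth projective variety over a number field, `Γ` the absolute Galois group, `P` the
polarised Hodge structure `H(X(ℂ), ℚ)`, in a homogeneous basis, `ρ` the Galois representation on
`H(X, ℚ_ℓ)` in the same basis (comparison theorem), `χ` the character of `ℚ_ℓ(-1)`. (One may also take
the sum of a motive and the unit motive.) `A` is an abelian variety with complex multiplication;
`P'`, `ρ'` are the same data for `A`; Hodge classes and Tate classes on the powers of `A` span the same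
spaces (Pohlmann). The condition `HasDetDuals` says that the determinant of the image of every
idempotent of the centre of the algebra of endomorphisms of the Hodge structure has a dual in the
cohomology of `A`, in the Hodge realisation and (up to finite index) in the `ℓ`-adic realisation.
There is such an abelian variety `A` when the endomorphisms in the centre are motivated: then the
determinants are motives of rank one over a field, their `ℓ`-adic realisations are given by
algebraic Hecke characters of the type given by the Hodge numbers.

* If the Hodge classes on `X^2` and `X^4` are Tate classes, so are the Hodge classes on all powers.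
* If moreover the `H^m(X, ℚ_ℓ)` are semisimple and the Tate classes on `X^2` and `X^4` are
  combinations of Hodge classes, this is true for the Tate classes on all powers of `X`.
-/

namespace Pool.Agent.Results.MP_de8692_ag.FourthPowerAndCentre

open Pool.Agent.N202.NC Pool.Agent.N211.SM

/-- **The fourth power decides.** -/
theorem result (ι ι' : Type) [Fintype ι] [DecidableEq ι] [Fintype ι'] [DecidableEq ι']
    (P : HodgeStructure ι) (P' : HodgeStructure ι') (Γ : Type) [Group Γ] (ℓ : ℕ) [Fact ℓ.Prime]
    (ρ : Γ →* Matrix ι ι ℚ_[ℓ]) (ρ' : Γ →* Matrix ι' ι' ℚ_[ℓ]) (χ : Γ →* ℚ_[ℓ])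
    (j : ℚ_[ℓ] →+* ℂ) :
    GaloisRep P.deg ρ χ → GaloisRep P'.deg ρ' χ →
    (∀ k, 0 < k → HodgeInTate P' ρ' χ k) → (∀ k, 0 < k → TateInHodge P' ρ' χ k) →
    HasDetDuals P P' ρ ρ' χ j → HodgeInTate P ρ χ 2 →
    (HodgeInTate P ρ χ 4 → ∀ k, 0 < k → HodgeInTate P ρ χ k) ∧
    (SemisimpleH P.deg ρ → TateInHodge P ρ χ 2 → TateInHodge P ρ χ 4 →
      ∀ k, 0 < k → TateInHodge P ρ χ k) :=
  fourth P P' ρ ρ' χ j

end Pool.Agent.Results.MP_de8692_ag.FourthPowerAndCentre
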