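import Pool.Agent.N978.JT.Final
import Pool.Agent.N592.HP.SV
import Pool.Agent.N279.HP.DV

/-!
# Families of motives: the Jordan types of the local monodromies decide for 100 percent of the members,
# at every prime number

Let `M` be the sum of finitely many families `M i` of pure motives of dimension `n i` and weight `w i`
over an open subset `U` of the projective line over `ℚ`, and let `𝔤` be the Lie algebra of the motivic
Galois group of the generic member (over an algebraically closed field), of rank at most `r`. Let
`C k`, `k` in a finite set, be binary forms, the equations of closed points of the projective line,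
and let `l k i` be the list of the sizes of the Jordan blocks of the unipotent local monodromy of
`M i` there.

Theorem. Suppose that

* for each `i` and each `0 < d < n i` there is a `k` such that `d` is not the sum of some of the
  numbers in `l k i` (no dimension of a proper summand is compatible with all the Jordan types);
* for `i ≠ j` there is a `k` with `l k i ≠ l k j`;
* for ONE rational point `t₀` of `U` and ONE prime number `ℓ₀` there is one element `σ` of the Galois
  group of `ℚ` (for instance one Frobenius element) with `r` multiplicatively independent eigenvalues
  on the `ℓ₀`-adic realization of `M_{t₀}`.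

Then for 100 percent of the rational points `t` of the projective line, ordered by height, and for
EVERY prime number `ℓ`, the `ℓ`-adic realization of `M_t` is a semisimple representation of the Galois
group of `ℚ` and of all its subgroups of finite index, and its Tate tensors are exactly the tensors
killed by `𝔤 ⊗ ℚ_ℓ`: so all of them are motivated, and the identity component of the Zariski closure
of the image of the Galois group is the identity component of the motivic Galois group of `M_t`,
whose Lie algebra is `𝔤`.

No point of maximally unipotent, or regular unipotent, monodromy is needed. For instance a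
hypergeometric family of rank six with symplectic monodromy and with the exponents `1/3, 2/3` (three
times each) at one point and `1/4, 1/2, 3/4` (two times each) at the other one has Jordan blocks of
the sizes `3, 3` and `2, 2, 2`; the sums of some of these numbers are `0, 3, 6` and `0, 2, 4, 6`.

The proof: by the rank theorem (helper203, `Pool.Agent.N203.RE`) and the theorem `HundredPercent` of
`MP_8f1292_ag` for 100 percent of the `t`, at every `ℓ`, the representation is semisimple and the Tate
tensors are motivated if and only if the Tate endomorphisms are. By a sieve
(`Pool.Agent.N592.HP`, helper592; `Pool.Agent.N279.HP`, helper279) 100 percent of the points `t` have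
reduction in the zeros of `C k` modulo two primes; one of the two is different from `ℓ`, so there is
an element of the Galois group with the blocks `l k i` on `M i`, for every `k`. A summand `W` of `M i`
stable under a subgroup of finite index has dimension `0` or `n i`: the numbers of blocks of each
size on `W` and on a stable complement add up to the ones on `M i`. In the same way the degree of an
extension field of `ℚ_ℓ` in the commutant is one (all numbers of blocks are divisible by it). So the
commutant consists of scalars, and different `M i` have no common constituent.
-/

set_option autoImplicit false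

namespace Pool.Agent.Results.MP_de8692_ag.JordanTypes

open Polynomial Module Pool.Agent.Y114.RM Pool.Agent.R931.IR Pool.Agent.N203.RE
  Pool.Agent.N978.HP Pool.Agent.N978.JT

theorem result {Γ : Type} [Group Γ] [TopologicalSpace Γ] {ι : Type} [Fintype ι] [DecidableEq ι]
    {n : ι → ℕ}
    -- the family over `U` and its motivic Lie algebra, of rank at most `r`
    (s : Pt → Gal(AlgebraicClosure ℚ/ℚ) →* Γ) (w : ι → ℤ) (m : ℕ) (D : MvPolynomial (Fin 2) ℤ)
    (P : ℕ → Pt → ι → ℚ[X]) (ρ : ∀ (ℓ : ℕ) [Fact ℓ.Prime], Reps Γ n ℓ)
    (𝔤 : Submodule ℚ (End ℚ (Betti n))) (h : Family s w m D P ρ 𝔤) (r : ℕ) (hr : RatRankLE 𝔤 r)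
    -- the Jordan types of the local monodromies at the zeros of the `C k`
    {κ : Type} [Finite κ] (C : κ → MvPolynomial (Fin 2) ℤ) (l : κ → ι → Multiset ℕ)
    (hC : ∀ k, CuspOfType s m D (C k) ρ (l k))
    (hl : ∀ i d, 0 < d → d < n i → ∃ k, ¬ IsPartSum (l k i) d)
    (hl' : ∀ i j, i ≠ j → ∃ k, l k i ≠ l k j)
    -- one member, one prime number, one element of the Galois group
    (t₀ : Pt) (ht₀ : InU D t₀) (c : ℕ) (hc : IntegralMember m D P c t₀)
    (ℓ₀ : ℕ) [Fact ℓ₀.Prime] (σ : Gal(AlgebraicClosure ℚ/ℚ))
    (hσ : IndependentEigenvalues (restrictTo (ρ ℓ₀) (s t₀)) σ r) :
    -- 100 percent of the members, every prime number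
    AlmostAll fun t => InU D t ∧ ∀ (ℓ : ℕ) [Fact ℓ.Prime],
      Semisimple (restrictTo (ρ ℓ) (s t)) ∧
        TateTensorsOf (restrictTo (ρ ℓ) (s t)) (scalars ℓ 𝔤) :=
  types_almostAll Pool.Agent.N592.HP.t_SV Pool.Agent.N279.HP.t_DV Pool.Agent.N592.HP.t_AA h r hr
    ht₀ c (fun _ i hv a ha => hc _ hv i a ha) ℓ₀ σ hσ C l hC hl hl'

end Pool.Agent.Results.MP_de8692_ag.JordanTypes
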