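import Pool.Agent.N174.Lef.MMain

/-!
# A Lefschetz theorem for the motivic Mumford-Tate conjecture

By the equivalence listed on the page the conjecture says that the `l`-adic monodromy group is the
motivic Galois group, in other words that all Tate classes on all varieties are motivated.

Let `f : X ⟶ Y` be a morphism of smooth projective varieties over a finitely generated field `k`
such that the vanishing cohomology `E` of `f` (the kernel of the push-forward) is in the middle
degree, and irreducible under all open subgroups of the Galois group `Γ` of `k`. Suppose that some
`g ∈ Γ` acts trivially on the cohomology of `Y` and of `Z` and on the Tate twists, and by a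
Picard-Lefschetz formula on `E`, and that the retraction of `f^*` along `E` is given by motivated
correspondences. If all Tate classes on `Y ^ n × Z` are motivated, then all Tate classes
on `X ^ n × Z` are motivated, in all codimensions. There is no condition on `n` if the
dimension of `X` is odd; if it is even, the condition is `n < dim E`.

The intended examples are the generic member `X` of a Lefschetz pencil of sections of `Y` by a
sufficiently ample divisor, or of a pencil of double coverings of `Y` with a node. The retraction
is given by the inverse of the hard Lefschetz isomorphism of `Y`, which is motivated (resp. by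
`1 / 2` times the push-forward).
-/

open CategoryTheory Pool.Agent.H914 Pool.Agent.R920.MT Pool.Agent.N174.Lef.Mot

universe u v w

namespace Pool.Agent.Results.MP_de8692_ag.MotivatedLefschetz

/-- **The Lefschetz theorem for Tate classes and motivated classes.** -/
theorem result {k : Type u} [Field k] {𝒱 : VarClass k} {ops : CycleOps 𝒱}
    {W : WeilCohomology.{u, v} ops} {Γ : Type w} [Group Γ] {χ : Γ →* W.Kˣ}
    {X Y Z V V' : AVar W Γ} {n : ℕ} {f : X.X ⟶ Y.X} (h : IsLefschetz χ (IsMotivated W) X Y f)
    (hn : HasNode χ X Y Z f) (hE : LargeIfEven W f n) (hV : IsPowProd X Z n V)
    (hV' : IsPowProd Y Z n V') (hY : TateIn χ (IsMotivated W) V') :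
    TateIn χ (IsMotivated W) V :=
  tate_motivated h hn hE hV hV' hY

end Pool.Agent.Results.MP_de8692_ag.MotivatedLefschetz
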