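import Pool.Agent.N144.PR.Gal
import Pool.Agent.N144.PR.Inv

/-!
# Tate classes on motives of prime rank over an imaginary quadratic field

Let `M` be a direct sum of pure motives `M i` (in the category of André) over a finitely generated field
`k` of characteristic zero; `Γ` is the Galois group of `k`, or the fundamental group of a model, and `ρ`
the action of `Γ` on the `ℓ`-adic realization `V` of `M`.  Let `𝔤` be the Lie algebra (over `ℚ`, in the
Betti realization) of the motivic Galois group of `M` over an algebraically closed field.

The motives which are considered here have over the algebraic closure multiplication by an imaginary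
quadratic field `F`, which is compatible with the polarization `ψ`, and the rank of `M` over `F` is
a PRIME number `p`.  Let `ℓ` be a prime number which splits in `F`, `λ`, `μ` the places of `F` above
`ℓ`; then `V = V_λ ⊕ V_μ`, with subspaces of dimension `p` which are isotropic and dual to each other.
In `QuadraticType` there is only the data at `ℓ`: `J` is a generator of `F` over `ℚ` of trace zero and
`j` its image at `λ`, so that `V_λ` is the eigenspace of `J` for the eigenvalue `j`.  Then `𝔤 ⊗ ℚ_ℓ` is
contained in the Lie algebra of the endomorphisms which commute with `J` and are similitudes of `ψ`,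
which is isomorphic to `𝔤𝔩_p × 𝔤𝔪`.

**Theorem.**  Suppose that no subgroup of finite index of `Γ` acts on `V` by commuting operators, and
that there is an element `σ` of `Γ`, for example a Frobenius element, which preserves `V_λ` and `V_μ`,
acts irreducibly on `V_λ`, has multiplicatively independent determinants on `V_λ` and `V_μ`, and such that
no power of `σ` acts on `V_λ` by a scalar (`Elliptic`).  Then:

(a) `𝔤 ⊗ ℚ_ℓ` is the Lie algebra of all similitudes which commute with `J`;

(b) the representation `V` is semisimple over all finite extensions of `k`;

(c) all Tate tensors, in all tensor spaces of `V` and its dual space, are motivated: they are the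
tensors killed by `𝔤 ⊗ ℚ_ℓ`;

(d) all Tate classes on the powers of `M` are generated in degree two: if a subgroup of finite index
acts on `ψ` by the character `χ`, then all multilinear forms in `2 m` variables on which it acts
by `χ ^ m` are linear combinations of products of the two bilinear forms `ψ (x, y)` and
`ψ (J x, y)`.

If the motivic Galois group is the full group of similitudes, then the Mumford-Tate conjecture implies
that the image of `Γ` is open in the group of `ℚ_ℓ`-points of `GL_p × GL_1`, so that there are such
elements `σ`: the hypotheses are necessary.  For simple abelian varieties of prime dimension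
everything is known (Serre, Ribet, Tankeev, Chi).  For other motives neither the semisimplicity nor
anything about Tate tensors was known.

Proof.  Let `L` be the Lie algebra of the endomorphisms which preserve all subspaces stable under a
subgroup of finite index and kill all Tate tensors.  If the blocks of its elements on `V_λ` commute, then
it is commutative, because the commutators are multiples of a projector and have trace zero, and then by
the theory of unipotent parts and tori a subgroup of finite index acts by commuting operators.  The
eigenvalues of `σ` on `V_λ` are the conjugates of an element of a field of degree `p` over `ℚ_ℓ`;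
there is a cyclic group of order `p` of permutations of them in the Galois group, and it follows that they
are multiplicatively independent, and that there is an eigenvalue on `V_μ` which is independent of
them.  So `L` contains a torus of dimension `p + 1` which commutes with `σ`: its block on `V_λ` is the
field `ℚ_ℓ [σ]`.  A Lie algebra of endomorphisms of `V_λ` which contains a field of prime degree
`p` is closed under products (`mul_mem`: the space `End V_λ` is free of rank one over the tensor square of
the field, in which the kernel of the multiplication is the ideal generated by `x ⊗ 1 - 1 ⊗ x`, so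
that all the elements of the complement of the field are commutators with `x`), and if it is not
commutative it is everything by Jacobson's density theorem.  (d) follows from (a), (c) and the first
fundamental theorem of invariant theory.
-/

set_option autoImplicit false

namespace Pool.Agent.Results.MP_de8692_ag.PrimeRankMotives

open NumberField IsDedekindDomain Module Pool.Agent.Y114.RM Pool.Agent.Y114.GF Pool.Agent.Y114.TF
  Pool.Agent.Y114.MU Pool.Agent.R931.IR Pool.Agent.N203.RE Pool.Agent.N144.PR

section general

variable (k V : Type) [Field k] [AddCommGroup V] [Module k V]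

/-- The multiplication by the quadratic field and the polarization, on the `ℓ`-adic realization. -/
structure QuadMult where
  /-- the prime number -/
  p : ℕ
  /-- the endomorphism -/
  J : End k V
  /-- its eigenvalue -/
  j : k
  /-- the form -/
  form : V →ₗ[k] V →ₗ[k] k
  type : QuadraticType p J j form

variable {k V} (A : QuadMult k V) {Γ : Type} [Group Γ] (ρ : Representation k Γ V)

/-- The endomorphisms which commute with `J` and are (infinitesimal) similitudes. -/
def Simil (X : End k V) : Prop :=
  X * A.J = A.J * X ∧ ∃ c, ∀ x y, A.form (X x) y + A.form x (X y) = c * A.form x y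

/-- All elements of `𝔤` commute with `J` and are similitudes. -/
def MultOn (𝔤 : Submodule k (End k V)) : Prop := ∀ X ∈ 𝔤, Simil A X

/-- The elements of `𝔤` are all endomorphisms which commute with `J` and are similitudes. -/
def IsAllSimil (𝔤 : Submodule k (End k V)) : Prop := ∀ X, X ∈ 𝔤 ↔ Simil A X

/-- The element `σ` acts irreducibly on `V_λ`, preserves `V_μ`, has independent determinants on them,
and no power of it is a scalar on `V_λ`. -/
def EllipticAt (σ : Γ) : Prop := Elliptic A.J A.j (ρ σ)

/-- No subgroup of finite index acts by commuting operators. -/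
def NeverCommutes : Prop := ∀ Δ : Subgroup Γ, Δ.FiniteIndex →
  ∃ a ∈ Δ, ∃ b ∈ Δ, ∃ x, ρ a (ρ b x) ≠ ρ b (ρ a x)

/-- The products of `m` linear combinations of the two bilinear forms. -/
def Products (m : ℕ) : Set (MultilinearMap k (fun _ : Fin m × Fin 2 => V) k) :=
  {F | ∃ (σ : Equiv.Perm (Fin m × Fin 2)) (B : Fin m → (V →ₗ[k] V →ₗ[k] k)),
    (∀ l, Comb A.J A.form (B l)) ∧ ∀ v, F v = ∏ l, B l (v (σ (l, 0))) (v (σ (l, 1)))}

/-- If a subgroup `Δ` of finite index acts on the form by the character `χ`, then all multilinear
forms on which it acts by `χ ^ m` are linear combinations of products of the two bilinear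
forms. -/
def FormsGenerated : Prop :=
  ∀ (Δ : Subgroup Γ) (χ : Γ → k), Δ.FiniteIndex →
    (∀ s ∈ Δ, ∀ x y, A.form (ρ s x) (ρ s y) = χ s * A.form x y) →
    ∀ (m : ℕ) (φ : MultilinearMap k (fun _ : Fin m × Fin 2 => V) k),
      (∀ s ∈ Δ, ∀ v, φ (fun l => ρ s (v l)) = χ s ^ m * φ v) →
      φ ∈ Submodule.span k (Products A m)

end general

section ladic

variable {ι : Type} (n : ι → ℕ) (ℓ : ℕ) [Fact ℓ.Prime] {Γ : Type} [Group Γ]

/-- The multiplications on the direct sum of the spaces `ℚ_ℓ ^ (n i)`. -/
def Mult : Type := QuadMult ℚ_[ℓ] (∀ i, Fin (n i) → ℚ_[ℓ])

variable {n ℓ} (ρ : Reps Γ n ℓ) (𝔤 : Submodule ℚ (End ℚ (Betti n))) (A : Mult n ℓ)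

/-- The extension of scalars of `𝔤` commutes with `J` and consists of similitudes. -/
def HasMult : Prop := MultOn A (scalars ℓ 𝔤)

/-- The extension of scalars of `𝔤` is the Lie algebra of all similitudes which commute with `J`. -/
def IsFull : Prop := IsAllSimil A (scalars ℓ 𝔤)

/-- The element `σ` is elliptic (`EllipticAt`). -/
def IsElliptic (σ : Γ) : Prop := EllipticAt A (sumRep ρ) σ

/-- No subgroup of finite index acts by commuting operators. -/
def NotAbelian : Prop := NeverCommutes (sumRep ρ)

/-- All Tate forms are linear combinations of products of the two bilinear forms. -/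
def TateForms : Prop := FormsGenerated A (sumRep ρ)

end ladic

theorem result {Γ : Type} [Group Γ] [TopologicalSpace Γ] [IsTopologicalGroup Γ] [CompactSpace Γ]
    {ι : Type} [Fintype ι] [DecidableEq ι] {n : ι → ℕ} {ℓ : ℕ} [Fact ℓ.Prime]
    -- the `ℓ`-adic realization and the Lie algebra of the motivic Galois group
    (ρ : Reps Γ n ℓ) (𝔤 : Submodule ℚ (End ℚ (Betti n)))
    (hcont : Conts ρ) (hmot : Motivic ρ (scalars ℓ 𝔤))
    -- the multiplication and the polarization
    (A : Mult n ℓ) (h𝔤 : HasMult 𝔤 A)
    (hab : NotAbelian ρ) (hell : ∃ σ, IsElliptic ρ A σ) :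
    -- (a), (b), (c), (d)
    IsFull 𝔤 A ∧ Semisimple ρ ∧ TateMotivated ρ 𝔤 ∧ TateForms ρ A := by
  have hab' : Pool.Agent.N144.TD.NotPotentiallyAbelian ρ := fun Δ hΔ => by
    obtain ⟨a, ha, b, hb, x, hx⟩ := hab Δ hΔ
    exact ⟨a, ha, b, hb, fun h => hx (LinearMap.congr_fun h x)⟩
  have h𝔤' : scal ℓ 𝔤 ≤ sims (QuadMult.J A) (QuadMult.form A) := h𝔤
  have hA := QuadMult.type A
  obtain ⟨σ, hσ⟩ := hell
  obtain ⟨-, h1, h2, h3⟩ := main_aux ρ hcont (scal ℓ 𝔤) hmot hA h𝔤' hab' σ hσ
  refine ⟨fun X => ?_, h2, h3, fun Δ χ hΔ hχ m φ hφ => inv_mem' hA φ fun X hXJ hX => ?_⟩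
  · change X ∈ scal ℓ 𝔤 ↔ X ∈ sims (QuadMult.J A) (QuadMult.form A)
    rw [h1]
  · have hnt : Nontrivial (∀ i, Fin (n i) → ℚ_[ℓ]) :=
      Module.nontrivial_of_finrank_pos (R := ℚ_[ℓ]) (by
        rw [hA.dim]
        exact Nat.mul_pos two_pos hA.prime.pos)
    refine killed_of_twist (sumRep ρ) hA.nondegenerate.1 hX (fun m ψ hψ => ?_) hΔ hχ φ hφ
    refine (h3 m ψ).1 hψ X ?_
    rw [h1]
    exact ⟨hXJ, 0, fun x y => by rw [hX, zero_mul]⟩

end Pool.Agent.Results.MP_de8692_ag.PrimeRankMotives
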